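import Pool.Agent.T2H75.FK.Fin2

set_option autoImplicit false

/-!
# MP_b84e2d_an, Q1: asymptotic planarity is stable under bounded perturbations (yes)

Let `U`, `U'` satisfy (H), `d_H(U,U') < ∞`, and let `u_U` be asymptotically locally planar.

1. `f(s)/s` nonincreasing makes `η u` a subsolution for `η ∈ [0,1]`; (H) and `d_H(U,U') < ∞` give
   `u_{U'}(t+1,·) ≥ η u_U(t,·)` and vice versa.
2. A Harnack inequality of Wang type: `u(T,x+y)^{1+4/T} ≤ u(T,x) exp(2M + (1+4/T)|y|²/8)`, obtained
   by comparing `u` with `u(r, z+(r-s)η)^p e^{-κ(r-s)}`.  It gives equicontinuity, and, for the limits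
   `ψ = lim u(t_n + ·, x_n + ·)`, a two-sided Harnack inequality in space and time.
3. Hence the limits `ψ'` (for `U'`) and `ψ` (for `U`) along the same sequence satisfy
   `c ψ ≤ ψ' ≤ ψ/c` at all times, and `ψ` is invariant under the translations by `h ⊥ e`, with the
   same `e` for all times.
4. Let `κ = inf ψ'(s,x+h)/ψ'(s,x)` over all `x` and all integer times `s ≤ 0`.  If `κ < 1`, then
   near a minimising sequence `ψ'(s-1,· + h) ≈ κ ψ'(s-1,·)` on large balls (because
   `ψ'(·+h) - κ ψ'` is a nonnegative supersolution of a linear equation), so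
   `ψ'(s-1,x+kh) ≈ κ^k ψ'(s-1,x)`, which contradicts step 3 for large `k`.  So `κ = 1` for all
   `h ⊥ e`, and `ψ'` depends on `x·e` only.
-/

open MeasureTheory Set

namespace Pool.Agent.Results.MP_b84e2d_an.BoundedPerturbation

open Pool.Agent.X297.KP Pool.Agent.T2H75.FK

/-- If `U`, `U' ⊆ ℝ^N` are measurable, satisfy (H) and are at finite Hausdorff distance, and `u_U` is
asymptotically locally planar, then so is `u_{U'}`. -/
theorem result (N : ℕ) (hN : 1 ≤ N) (f : ℝ → ℝ) (hf : IsFisherKPP f) (U U' : Set (E N))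
    (hU : MeasurableSet U) (hU' : MeasurableSet U') (hH : CondH U) (hH' : CondH U')
    (hd : Metric.hausdorffEDist U U' < ⊤) (u u' : ℝ → E N → ℝ)
    (hu : IsClassicalSolution f U u) (hu' : IsClassicalSolution f U' u') (hp : Planar u) :
    Planar u' :=
  main hf hN hU hU' hH hH' hd hu hu' hp

end Pool.Agent.Results.MP_b84e2d_an.BoundedPerturbation
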